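import Pool.Agent.Helper31.BQ.Stmts2

/-!
# BQ, row CP: the compact approximation property of the space `EE`
-/

set_option autoImplicit false

namespace Pool.Agent.Helper21.BQ

open Filter Topology Pool.Agent.Helper31.BQ

/-- contractions converging pointwise: uniform convergence on compact sets -/
theorem cp_unif {E : Type*} [NormedAddCommGroup E] [NormedSpace ℝ E] (D : ℕ → E →L[ℝ] E)
    (hD : ∀ n, ‖D n‖ ≤ 1) (hlim : ∀ x, Tendsto (fun n => D n x) atTop (𝓝 x)) (K : Set E)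
    (hK : IsCompact K) (ε : ℝ) (hε : 0 < ε) : ∃ n, ∀ x ∈ K, ‖D n x - x‖ < ε := by
  obtain ⟨t, htK, htf, hcov⟩ := hK.finite_cover_balls (e := ε / 3) (by positivity)
  have h1 : ∀ y ∈ t, ∀ᶠ n in atTop, ‖D n y - y‖ < ε / 3 := by
    intro y _
    have h2 := (hlim y).sub_const y
    rw [sub_self] at h2
    have h3 := h2.norm
    rw [norm_zero] at h3
    exact h3.eventually_lt_const (by positivity)
  have h4 : ∀ᶠ n in atTop, ∀ y ∈ t, ‖D n y - y‖ < ε / 3 := (htf.eventually_all).2 h1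
  obtain ⟨n, hn⟩ := h4.exists
  refine ⟨n, fun x hx => ?_⟩
  have h5 := hcov hx
  simp only [Set.mem_iUnion, Metric.mem_ball, exists_prop] at h5
  obtain ⟨y, hy, hxy⟩ := h5
  rw [dist_eq_norm] at hxy
  have h6 : D n x - x = D n (x - y) + (D n y - y) - (x - y) := by
    rw [map_sub]
    abel
  have h7 : ‖D n (x - y)‖ ≤ ‖x - y‖ := by
    have := (D n).le_of_opNorm_le (hD n) (x - y)
    simpa using this
  calc ‖D n x - x‖ = ‖D n (x - y) + (D n y - y) - (x - y)‖ := by rw [h6]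
    _ ≤ ‖D n (x - y) + (D n y - y)‖ + ‖x - y‖ := norm_sub_le _ _
    _ ≤ ‖D n (x - y)‖ + ‖D n y - y‖ + ‖x - y‖ := by gcongr; exact norm_add_le _ _
    _ < ε := by
      have := hn y hy
      linarith

variable {H : Type} [NormedAddCommGroup H] [InnerProductSpace ℝ H]

theorem cp_mem (J : ℕ → H →L[ℝ] H) (S : H →L[ℝ] H) (T : ℕ → H →L[ℝ] H)
    (hJ : ∀ k, (J k).comp (T k) = S.comp (J k))
    (σ : ∀ k, Fin (2 ^ k) → GG k → ℝ) (τ : ∀ k, Fin (2 ^ (k + 1)) → GG k → ℝ)
    (D : WW H →L[ℝ] WW H) (hD : ∀ x k g, cd (D x) k g = T k (cd x k g)) (x : WW H)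
    (hx : x ∈ EE J σ τ) : D x ∈ EE J σ τ := by
  intro k j
  have h1 := congrArg S (hx k j)
  rw [map_smul, map_smul, map_sum, map_sum] at h1
  simp only [map_smul] at h1
  have h2 : ∀ l g, S (J l ((x : ∀ k, GG k → H) l g)) = J l ((D x : ∀ k, GG k → H) l g) := by
    intro l g
    have h3 := hD x l g
    unfold cd at h3
    rw [h3]
    have h4 := congrArg (fun f : H →L[ℝ] H => f ((x : ∀ k, GG k → H) l g)) (hJ l)
    simpa using h4.symm
  simp only [h2] at h1
  exact h1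

theorem cp_lim (T : ℕ → ℕ → H →L[ℝ] H) (hT : ∀ n k, ‖T n k‖ ≤ 1)
    (hlim : ∀ k x, Tendsto (fun n => T n k x) atTop (𝓝 x))
    (D : ℕ → WW H →L[ℝ] WW H) (hD : ∀ n x k g, cd (D n x) k g = T n k (cd x k g)) (x : WW H) :
    Tendsto (fun n => D n x) atTop (𝓝 x) := by
  rw [tendsto_iff_norm_sub_tendsto_zero]
  have hp : 0 < (2 : ENNReal).toReal := by norm_num
  have hq : (2 : ENNReal).toReal = 2 := by norm_num
  have hcoord : ∀ n k g, (D n x - x : WW H) k g =
      T n k ((x : ∀ k, GG k → H) k g) - (x : ∀ k, GG k → H) k g := by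
    intro n k g
    have h3 := hD n x k g
    unfold cd at h3
    rw [← h3]
    rfl
  have hb : ∀ n k, ‖(D n x - x : WW H) k‖ ≤ 2 * ‖(x : ∀ k, GG k → H) k‖ := by
    intro n k
    rw [pi_norm_le_iff_of_nonneg (by positivity)]
    intro g
    rw [hcoord]
    have h4 : ‖T n k ((x : ∀ k, GG k → H) k g)‖ ≤ ‖(x : ∀ k, GG k → H) k g‖ := by
      have := (T n k).le_of_opNorm_le (hT n k) ((x : ∀ k, GG k → H) k g)
      simpa using this
    have h5 : ‖(x : ∀ k, GG k → H) k g‖ ≤ ‖(x : ∀ k, GG k → H) k‖ := norm_le_pi_norm _ g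
    calc ‖T n k ((x : ∀ k, GG k → H) k g) - (x : ∀ k, GG k → H) k g‖ ≤
          ‖T n k ((x : ∀ k, GG k → H) k g)‖ + ‖(x : ∀ k, GG k → H) k g‖ := norm_sub_le _ _
      _ ≤ 2 * ‖(x : ∀ k, GG k → H) k‖ := by linarith
  have hk : ∀ k, Tendsto (fun n => ‖(D n x - x : WW H) k‖ ^ (2 : ENNReal).toReal) atTop
      (𝓝 0) := by
    intro k
    have h6 : Tendsto (fun n => (D n x - x : WW H) k) atTop (𝓝 0) := by
      rw [tendsto_pi_nhds]
      intro g
      have h7 : (fun n => (D n x - x : WW H) k g) = fun n =>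
          T n k ((x : ∀ k, GG k → H) k g) - (x : ∀ k, GG k → H) k g := by
        funext n
        exact hcoord n k g
      rw [h7]
      have h8 := (hlim k ((x : ∀ k, GG k → H) k g)).sub_const ((x : ∀ k, GG k → H) k g)
      rw [sub_self] at h8
      exact h8
    have h9 := h6.norm
    rw [norm_zero] at h9
    have h10 := h9.rpow_const (p := (2 : ENNReal).toReal) (Or.inr hp.le)
    rwa [Real.zero_rpow hp.ne'] at h10
  have hsum : Summable fun k => 4 * ‖(x : ∀ k, GG k → H) k‖ ^ (2 : ENNReal).toReal :=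
    ((lp.memℓp x).summable hp).mul_left 4
  have ht : Tendsto (fun n => ∑' k, ‖(D n x - x : WW H) k‖ ^ (2 : ENNReal).toReal) atTop
      (𝓝 (∑' _k : ℕ, (0 : ℝ))) := by
    refine tendsto_tsum_of_dominated_convergence hsum hk (Eventually.of_forall fun n k => ?_)
    rw [Real.norm_of_nonneg (by positivity), hq]
    have h11 : ‖(D n x - x : WW H) k‖ ^ (2 : ℝ) ≤ (2 * ‖(x : ∀ k, GG k → H) k‖) ^ (2 : ℝ) :=
      Real.rpow_le_rpow (norm_nonneg _) (hb n k) (by norm_num)
    refine h11.trans (le_of_eq ?_)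
    rw [Real.rpow_two, Real.rpow_two]
    ring
  rw [tsum_zero] at ht
  have he : (fun n => ‖D n x - x‖) = fun n =>
      (∑' k, ‖(D n x - x : WW H) k‖ ^ (2 : ENNReal).toReal) ^ (1 / (2 : ENNReal).toReal) := by
    funext n
    exact lp.norm_eq_tsum_rpow hp _
  rw [he]
  have h12 := ht.rpow_const (p := 1 / (2 : ENNReal).toReal) (Or.inr (by positivity))
  rwa [Real.zero_rpow (by positivity)] at h12

/-- row CP -/
theorem st_CP (h1 : ST_CL) (h2 : ST_DG) : ST_CP := by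
  intro H _ _ _ _ J e w S T hS σ τ K hK ε hε
  obtain ⟨hcl, -, -⟩ := h1 H J σ τ
  obtain ⟨-, -, -, -, hJ, hT, hfr, h0, hlim⟩ := hS
  choose D hDc hDn hDk using fun n => h2 H (T n) (hT n)
  have hmem : ∀ n, ∀ x ∈ EE J σ τ, D n x ∈ EE J σ τ := fun n x hx =>
    cp_mem J (S n) (T n) (hJ n) σ τ (D n) (hDc n) x hx
  obtain ⟨R, hR⟩ : ∃ R : ℕ → EE J σ τ →L[ℝ] EE J σ τ, ∀ n (x : EE J σ τ),
      ((R n x : EE J σ τ) : WW H) = D n (x : WW H) :=
    ⟨fun n => ((D n).comp (EE J σ τ).subtypeL).codRestrict (EE J σ τ)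
      fun x => hmem n x x.2, fun n x => rfl⟩
  have hRn : ∀ n, ‖R n‖ ≤ 1 := by
    intro n
    refine ContinuousLinearMap.opNorm_le_bound _ zero_le_one fun x => ?_
    have h3 := (D n).le_of_opNorm_le (hDn n) (x : WW H)
    rw [← hR n x] at h3
    exact h3
  have hRl : ∀ x, Tendsto (fun n => R n x) atTop (𝓝 x) := by
    intro x
    rw [tendsto_subtype_rng]
    have h4 := cp_lim T hT hlim D hDc (x : WW H)
    simpa only [hR] using h4
  obtain ⟨n, hn⟩ := cp_unif R hRn hRl K hK ε hε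
  refine ⟨R n, ?_, hn⟩
  have h5 : IsCompactOperator (D n) := hDk n (hfr n) (h0 n)
  have h6 : IsCompactOperator (fun x : EE J σ τ => D n (x : WW H)) :=
    h5.comp_clm (EE J σ τ).subtypeL
  have h7 := h6.codRestrict (V := EE J σ τ) (fun x => hmem n x x.2) hcl
  have h8 : (R n : EE J σ τ → EE J σ τ) =
      Set.codRestrict (fun x : EE J σ τ => D n (x : WW H)) (EE J σ τ) (fun x => hmem n x x.2) := by
    funext x
    exact Subtype.ext (hR n x)
  rw [h8]
  exact h7

end Pool.Agent.Helper21.BQ
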